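import Pool.Agent.MP_c9a892_co.H39.Sums

/-! Correlations of a colouring without monochromatic line, and the parity obstruction. -/

namespace Pool.Agent.MP_c9a892_co.H39

open Finset

/-- vectors over the field with two elements -/
abbrev Vc (d : ℕ) : Type := Fin d → ZMod 2

variable {d : ℕ}

theorem vc_self (x : Vc d) : x + x = 0 := by
  funext j
  exact CharTwo.add_self_eq_zero (x j)

def sg (x : ZMod 2) : ℤ := if x = 0 then 1 else -1

theorem sg_sq (x : ZMod 2) : sg x * sg x = 1 := by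
  revert x
  decide

variable (g : Vc d → Vc d → ZMod 2)

/-- no line is monochromatic -/
def NM : Prop := ∀ U W t : Vc d, (∀ j, U j = 1 → W j = 1) → U ≠ W →
  ¬ (g U t = g U (t + U + W) ∧ g U t = g W t ∧ g U t = g W (t + U + W))

def Ev (U W t : Vc d) : ℤ :=
  if g U t + g U (t + U + W) + g W t + g W (t + U + W) = 0 then 2 else 0

def PE (U W : Vc d) : ℤ := ∑ t, Ev g U W t
def PA (U W : Vc d) : ℤ := ∑ t, sg (g U t) * sg (g U (t + U + W))
def PB (U W : Vc d) : ℤ := ∑ t, sg (g W t) * sg (g W (t + U + W))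
def PG (U W : Vc d) : ℤ := ∑ t, sg (g U t) * sg (g W t)
def PD (U W : Vc d) : ℤ := ∑ t, sg (g U (t + U)) * sg (g W (t + W))

theorem PE_nonneg (U W : Vc d) : 0 ≤ PE g U W :=
  sum_nonneg fun t _ => by unfold Ev; split_ifs <;> norm_num

theorem sum_shift (F : Vc d → ℤ) (x : Vc d) : ∑ t, F (t + x) = ∑ t, F t :=
  Equiv.sum_comp (Equiv.addRight x) F

theorem PE_shift (U W x : Vc d) : ∑ t, Ev g U W (t + x) = PE g U W := sum_shift _ x

theorem pairs (a b c e : ZMod 2) (h : ¬ (a = b ∧ a = c ∧ a = e)) :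
    (if a + b + c + e = 0 then 2 else 0 : ℤ) = -(sg a * sg b + sg c * sg e + sg a * sg c +
      sg b * sg e + sg a * sg e + sg b * sg c) := by
  revert a b c e
  decide

theorem PE_eq (h : NM g) (U W : Vc d) (h1 : ∀ j, U j = 1 → W j = 1) (h2 : U ≠ W) :
    PE g U W = -(PA g U W + PB g U W + 2 * PG g U W + 2 * PD g U W) := by
  have e1 : ∑ t, sg (g U (t + U + W)) * sg (g W (t + U + W)) = PG g U W := by
    simp only [add_assoc]
    exact sum_shift (fun t => sg (g U t) * sg (g W t)) (U + W)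
  have e2 : ∑ t, sg (g U t) * sg (g W (t + U + W)) = PD g U W := by
    rw [← sum_shift _ U]
    refine sum_congr rfl fun t _ => ?_
    rw [add_assoc t U U, vc_self, add_zero]
  have e3 : ∑ t, sg (g U (t + U + W)) * sg (g W t) = PD g U W := by
    rw [← sum_shift _ W]
    refine sum_congr rfl fun t _ => ?_
    rw [add_right_comm t W U, add_assoc (t + U), vc_self, add_zero]
  simp only [PE, Ev, fun t => pairs _ _ _ _ (h U W t h1 h2), sum_neg_distrib, sum_add_distrib, e1,
    e2, e3]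
  simp only [PA, PB, PG]
  ring

theorem par15 (h : ℕ → ℕ → ZMod 2)
    (h0 : h 0 0 + h 0 12 + h 12 0 + h 12 12 = 1)
    (h1 : h 0 3 + h 0 14 + h 13 3 + h 13 14 = 1)
    (h2 : h 0 0 + h 0 14 + h 14 0 + h 14 14 = 1)
    (h3 : h 0 3 + h 0 12 + h 15 3 + h 15 12 = 1)
    (h4 : h 4 0 + h 4 8 + h 12 0 + h 12 8 = 1)
    (h5 : h 4 3 + h 4 10 + h 13 3 + h 13 10 = 1)
    (h6 : h 4 0 + h 4 10 + h 14 0 + h 14 10 = 1)
    (h7 : h 4 3 + h 4 8 + h 15 3 + h 15 8 = 1)
    (h8 : h 8 11 + h 8 15 + h 12 11 + h 12 15 = 1)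
    (h9 : h 8 10 + h 8 15 + h 13 10 + h 13 15 = 1)
    (h10 : h 8 10 + h 8 12 + h 14 10 + h 14 12 = 1)
    (h11 : h 8 11 + h 8 12 + h 15 11 + h 15 12 = 1)
    (h12 : h 12 14 + h 12 15 + h 13 14 + h 13 15 = 1)
    (h13 : h 12 12 + h 12 14 + h 14 12 + h 14 14 = 1)
    (h14 : h 12 8 + h 12 11 + h 15 8 + h 15 11 = 1) : False := by
  have h15 : (15 : ZMod 2) = 2 * (h 0 0 + h 0 12 + h 12 0 + h 12 12 + h 0 3 + h 0 14 + h 13 3 + h 13 14 +
      h 14 0 + h 14 14 + h 15 3 + h 15 12 + h 4 0 + h 4 8 + h 12 8 + h 4 3 +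
      h 4 10 + h 13 10 + h 14 10 + h 15 8 + h 8 11 + h 8 15 + h 12 11 + h 12 15 +
      h 8 10 + h 13 15 + h 8 12 + h 14 12 + h 15 11 + h 12 14) := by
    linear_combination -(h0 + h1 + h2 + h3 + h4 + h5 + h6 + h7 + h8 + h9 + h10 + h11 + h12 + h13 + h14)
  rw [show (2 : ZMod 2) = 0 from rfl, zero_mul] at h15
  exact absurd h15 (by decide)

/-- combination of four vectors given by the binary digits of `n` -/
def cb (A B C D : Vc d) (n : ℕ) : Vc d :=
  (if n.testBit 0 then A else 0) + (if n.testBit 1 then B else 0) +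
    (if n.testBit 2 then C else 0) + (if n.testBit 3 then D else 0)

theorem cb_xor (A B C D : Vc d) (n m : ℕ) :
    cb A B C D (n ^^^ m) = cb A B C D n + cb A B C D m := by
  have h : ∀ (x y : Bool) (Z : Vc d), (if (x ^^ y) = true then Z else 0) =
      (if x = true then Z else 0) + (if y = true then Z else 0) := by
    intro x y Z
    cases x <;> cases y <;> simp [vc_self]
  simp only [cb, Nat.testBit_xor, h]
  abel

theorem parity_aux (u : Vc d) (c : ℕ → Vc d) (hc : ∀ n m, c (n ^^^ m) = c n + c m) :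
    2 * (Fintype.card (Vc d) : ℤ) ≤
      PE g (u + c 0) (u + c 12) + PE g (u + c 0) (u + c 13) + PE g (u + c 0) (u + c 14) +
      PE g (u + c 0) (u + c 15) + PE g (u + c 4) (u + c 12) + PE g (u + c 4) (u + c 13) +
      PE g (u + c 4) (u + c 14) + PE g (u + c 4) (u + c 15) + PE g (u + c 8) (u + c 12) +
      PE g (u + c 8) (u + c 13) + PE g (u + c 8) (u + c 14) + PE g (u + c 8) (u + c 15) +
      PE g (u + c 12) (u + c 13) + PE g (u + c 12) (u + c 14) + PE g (u + c 12) (u + c 15) := by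
  have key : ∀ t : Vc d, ∀ E : ℕ → ℕ → ℕ → ℤ,
      (∀ I J τ, E I J τ = Ev g (u + c I) (u + c J) (t + c τ)) → 2 ≤
      E 0 12 0 + E 0 13 3 + E 0 14 0 + E 0 15 3 + E 4 12 0 +
      E 4 13 3 + E 4 14 0 + E 4 15 3 + E 8 12 11 + E 8 13 10 +
      E 8 14 10 + E 8 15 11 + E 12 13 14 + E 12 14 12 + E 12 15 8 := by
    intro t E hE'
    have hE : ∀ I J τ, 0 ≤ E I J τ := by
      intro I J τ
      rw [hE', Ev]
      split_ifs <;> simp
    have hz : ∀ I J τ, E I J τ < 2 → g (u + c I) (t + c τ) + g (u + c I) (t + c (τ ^^^ I ^^^ J)) +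
        g (u + c J) (t + c τ) + g (u + c J) (t + c (τ ^^^ I ^^^ J)) = 1 := by
      intro I J τ h0
      have h1 : t + c τ + (u + c I) + (u + c J) = t + c (τ ^^^ I ^^^ J) := by
        rw [hc, hc]
        linear_combination vc_self u
      rw [hE', Ev, h1] at h0
      have h2 : ∀ z : ZMod 2, z ≠ 0 → z = 1 := by decide
      refine h2 _ fun h3 => ?_
      rw [if_pos h3] at h0
      norm_num at h0
    by_contra hlt
    have := hE 0 12 0
    have := hE 0 13 3
    have := hE 0 14 0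
    have := hE 0 15 3
    have := hE 4 12 0
    have := hE 4 13 3
    have := hE 4 14 0
    have := hE 4 15 3
    have := hE 8 12 11
    have := hE 8 13 10
    have := hE 8 14 10
    have := hE 8 15 11
    have := hE 12 13 14
    have := hE 12 14 12
    have := hE 12 15 8
    exact par15 (fun I τ => g (u + c I) (t + c τ))
      (hz 0 12 0 (by linarith)) (hz 0 13 3 (by linarith)) (hz 0 14 0 (by linarith))
      (hz 0 15 3 (by linarith)) (hz 4 12 0 (by linarith)) (hz 4 13 3 (by linarith))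
      (hz 4 14 0 (by linarith)) (hz 4 15 3 (by linarith)) (hz 8 12 11 (by linarith))
      (hz 8 13 10 (by linarith)) (hz 8 14 10 (by linarith)) (hz 8 15 11 (by linarith))
      (hz 12 13 14 (by linarith)) (hz 12 14 12 (by linarith)) (hz 12 15 8 (by linarith))
  rw [← PE_shift g (u + c 0) (u + c 12) (c 0)]
  rw [← PE_shift g (u + c 0) (u + c 13) (c 3)]
  rw [← PE_shift g (u + c 0) (u + c 14) (c 0)]
  rw [← PE_shift g (u + c 0) (u + c 15) (c 3)]
  rw [← PE_shift g (u + c 4) (u + c 12) (c 0)]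
  rw [← PE_shift g (u + c 4) (u + c 13) (c 3)]
  rw [← PE_shift g (u + c 4) (u + c 14) (c 0)]
  rw [← PE_shift g (u + c 4) (u + c 15) (c 3)]
  rw [← PE_shift g (u + c 8) (u + c 12) (c 11)]
  rw [← PE_shift g (u + c 8) (u + c 13) (c 10)]
  rw [← PE_shift g (u + c 8) (u + c 14) (c 10)]
  rw [← PE_shift g (u + c 8) (u + c 15) (c 11)]
  rw [← PE_shift g (u + c 12) (u + c 13) (c 14)]
  rw [← PE_shift g (u + c 12) (u + c 14) (c 12)]
  rw [← PE_shift g (u + c 12) (u + c 15) (c 8)]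
  simp only [← sum_add_distrib]
  have := card_nsmul_le_sum univ _ 2 fun t _ => key t _ fun _ _ _ => rfl
  rw [card_univ, nsmul_eq_mul, mul_comm] at this
  exact this

theorem parity (U0 U4 U8 U12 U13 U14 U15 : Vc d) (h1 : U0 + U4 + U8 = U12)
    (h2 : U12 + U13 + U14 = U15) :
    2 * (Fintype.card (Vc d) : ℤ) ≤
      PE g U0 U12 + PE g U0 U13 + PE g U0 U14 + PE g U0 U15 + PE g U4 U12 +
      PE g U4 U13 + PE g U4 U14 + PE g U4 U15 + PE g U8 U12 + PE g U8 U13 +
      PE g U8 U14 + PE g U8 U15 + PE g U12 U13 + PE g U12 U14 + PE g U12 U15 := by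
  have := parity_aux g U0 _ (cb_xor (U12 + U13) (U12 + U14) (U0 + U4) (U0 + U8))
  have k : ∀ x y : Vc d, x + (x + y) = y := fun x y => by rw [← add_assoc, vc_self, zero_add]
  have e0 : U0 + cb (U12 + U13) (U12 + U14) (U0 + U4) (U0 + U8) 0 = U0 := by simp [cb]
  have e4 : U0 + cb (U12 + U13) (U12 + U14) (U0 + U4) (U0 + U8) 4 = U4 := by
    simp [cb, Nat.testBit, k]
  have e8 : U0 + cb (U12 + U13) (U12 + U14) (U0 + U4) (U0 + U8) 8 = U8 := by
    simp [cb, Nat.testBit, k]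
  have e12 : U0 + cb (U12 + U13) (U12 + U14) (U0 + U4) (U0 + U8) 12 = U12 := by
    change U0 + (0 + 0 + (U0 + U4) + (U0 + U8)) = U12
    linear_combination h1 + vc_self U0
  have e13 : U0 + cb (U12 + U13) (U12 + U14) (U0 + U4) (U0 + U8) 13 = U13 := by
    change U0 + ((U12 + U13) + 0 + (U0 + U4) + (U0 + U8)) = U13
    linear_combination h1 + vc_self U0 + vc_self U12
  have e14 : U0 + cb (U12 + U13) (U12 + U14) (U0 + U4) (U0 + U8) 14 = U14 := by
    change U0 + (0 + (U12 + U14) + (U0 + U4) + (U0 + U8)) = U14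
    linear_combination h1 + vc_self U0 + vc_self U12
  have e15 : U0 + cb (U12 + U13) (U12 + U14) (U0 + U4) (U0 + U8) 15 = U15 := by
    change U0 + ((U12 + U13) + (U12 + U14) + (U0 + U4) + (U0 + U8)) = U15
    linear_combination h1 + h2 + vc_self U0 + vc_self U12
  rwa [e0, e4, e8, e12, e13, e14, e15] at this

end Pool.Agent.MP_c9a892_co.H39
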