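import Pool.Agent.MP_c9a892_co.H39.Upper

/-! A colouring without monochromatic line in dimension 8, and the link with geometric lines. -/

namespace Pool.Agent.MP_c9a892_co.H39

open Finset

/-- table of 256 linear forms with constants -/
def tab : ℕ := 941763433246565411464830090265799510125217991786280961844960324628854247161499175159133790805377364680928132622977715392222308899312032417426838789026900419994355989577307573540502180709040603538672409457238210146029994580157950304103834213578043366727201501893017648414851822363530806199318337068583932392344978048993146133752596319401162752860969908443704655547052219103598633896828442235584238894351033740647977155451669899953028823687912803535281105810589156629745464693444659932690812348055708566015890581527917664472165635460823276448476651125587930904702830568863296013796130970815465264823163692456095560232697040708751524099562891162588256227568161748302957288654276767746176670722944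

def bit (n j : ℕ) : ZMod 2 := if n.testBit j then 1 else 0

def row (u : ℕ) : ℕ := (tab >>> (9 * u)) % 512

def dot (w : ℕ) (t : Vc 8) : ZMod 2 := ∑ j : Fin 8, bit w j * t j

def idx (U : Vc 8) : ℕ := ∑ j : Fin 8, (U j).val * 2 ^ (j : ℕ)

def unidx (n : ℕ) : Vc 8 := fun j => bit n j

theorem idx_ok : ∀ U : Vc 8, idx U < 256 ∧ unidx (idx U) = U := by decide +kernel

/-- table of parities -/
def ptab : ℕ := 47758914269546354982683078068829456704164423862093743397580034411621752859030

def chk (u v : ℕ) : Bool := (u &&& v != u) || (u == v) || ptab.testBit (row u &&& (u ^^^ v)) ||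
  ptab.testBit (row v &&& (u ^^^ v)) || (row u ^^^ row v == 256)

theorem chk_ok : ((List.range 256).all fun u => (List.range 256).all fun v => chk u v) = true := by
  decide +kernel

theorem ptab_ok : ∀ n < 256, ptab.testBit n = true → ∑ j : Fin 8, bit n j = 1 := by decide +kernel

theorem bit_and (a b j : ℕ) : bit (a &&& b) j = bit a j * bit b j := by
  simp only [bit, Nat.testBit_and]
  cases a.testBit j <;> cases b.testBit j <;> rfl

theorem bit_xor (a b j : ℕ) : bit (a ^^^ b) j = bit a j + bit b j := by
  simp only [bit, Nat.testBit_xor]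
  cases a.testBit j <;> cases b.testBit j <;> rfl

theorem tab_ok (u : ℕ) (hu : u < 256) (v : ℕ) (hv : v < 256)
    (h1 : ∀ j : Fin 8, bit u j = 1 → bit v j = 1) (h2 : u ≠ v) :
    dot (row u) (unidx u + unidx v) = 1 ∨ dot (row v) (unidx u + unidx v) = 1 ∨
      ((∀ j : Fin 8, bit (row u) j = bit (row v) j) ∧ bit (row u) 8 ≠ bit (row v) 8) := by
  have h := chk_ok
  simp only [List.all_eq_true, List.mem_range] at h
  have h3 := h u hu v hv
  have h4 : u &&& v = u := by
    refine Nat.eq_of_testBit_eq fun i => ?_
    rw [Nat.testBit_and]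
    by_cases hi : i < 8
    · have := h1 ⟨i, hi⟩
      simp only [bit] at this
      revert this
      cases u.testBit i <;> cases v.testBit i <;> decide
    · have : u < 2 ^ i := hu.trans_le (Nat.pow_le_pow_right (n := 2) (i := 8) two_pos (by omega))
      rw [Nat.testBit_eq_false_of_lt this, Bool.false_and]
  have h5 : ∀ w, ptab.testBit (w &&& (u ^^^ v)) = true → dot w (unidx u + unidx v) = 1 := by
    intro w hw
    rw [← ptab_ok _ (Nat.and_le_right.trans_lt (Nat.xor_lt_two_pow (n := 8) hu hv)) hw]
    simp only [dot, bit_and, bit_xor, unidx, Pi.add_apply]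
  simp only [chk, h4, bne_self_eq_false, Bool.false_or, Bool.or_eq_true, beq_iff_eq, h2,
    false_or] at h3
  rcases h3 with (h3 | h3) | h3
  · exact Or.inl (h5 _ h3)
  · exact Or.inr (Or.inl (h5 _ h3))
  · have h6 : ∀ j : Fin 8, bit 256 j = 0 := by decide
    have h7 : bit 256 8 = 1 := by decide
    have h8 : ∀ a b : ZMod 2, (a + b = 0 → a = b) ∧ (a + b = 1 → a ≠ b) := by decide
    rw [← h3] at h6 h7
    simp only [bit_xor] at h6 h7
    exact Or.inr (Or.inr ⟨fun j => (h8 _ _).1 (h6 j), (h8 _ _).2 h7⟩)

def g8 (U t : Vc 8) : ZMod 2 := dot (row (idx U)) t + bit (row (idx U)) 8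

theorem dot_add (w : ℕ) (s t : Vc 8) : dot w (s + t) = dot w s + dot w t := by
  simp only [dot, Pi.add_apply, mul_add, sum_add_distrib]

theorem NM_g8 : NM g8 := by
  rintro U W t h1 h2 ⟨e1, e2, e3⟩
  have := tab_ok _ (idx_ok U).1 _ (idx_ok W).1 (fun j => by
    have a := congrFun (idx_ok U).2 j
    have b := congrFun (idx_ok W).2 j
    simp only [unidx] at a b
    rw [a, b]
    exact h1 j) fun h => h2 (by rw [← (idx_ok U).2, h, (idx_ok W).2])
  rw [(idx_ok U).2, (idx_ok W).2] at this
  rw [e2] at e3
  simp only [g8, add_assoc t, dot_add _ t] at e1 e2 e3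
  rcases this with h | h | ⟨h, h'⟩
  · rw [h] at e1
    exact one_ne_zero (by linear_combination -e1)
  · rw [h] at e3
    exact one_ne_zero (by linear_combination -e3)
  · have : dot (row (idx U)) t = dot (row (idx W)) t := sum_congr rfl fun j _ => by rw [h j]
    exact h' (by linear_combination e2 - this)

/-- geometric lines -/
def GLine {n d : ℕ} (x : Fin n → Fin d → Fin n) : Prop :=
  Function.Injective x ∧ ∀ j, (∃ c, ∀ i, x i j = c) ∨ (∀ i, x i j = i) ∨ ∀ i, x i j = i.rev

/-- every colouring with two colours has a monochromatic geometric line -/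
def Forces (n d : ℕ) : Prop :=
  ∀ col : (Fin d → Fin n) → Bool, ∃ x, GLine x ∧ ∃ b, ∀ i, col (x i) = b

theorem Forces.succ {n d : ℕ} [NeZero n] (h : Forces n d) : Forces n (d + 1) := by
  intro col
  obtain ⟨x, ⟨h1, h2⟩, h3⟩ := h fun y => col (Fin.cons 0 y)
  refine ⟨fun i => Fin.cons 0 (x i), ⟨fun i i' e => h1 (Fin.cons_right_injective _ e), ?_⟩, h3⟩
  intro j
  refine Fin.cases (Or.inl ⟨0, fun _ => rfl⟩) (fun j => ?_) j
  simpa using h2 j

theorem Forces.mono {n d e : ℕ} [NeZero n] (h : Forces n d) (hde : d ≤ e) : Forces n e := by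
  induction e, hde using Nat.le_induction with
  | base => exact h
  | succ e _ ih => exact ih.succ

def lt (s t : ZMod 2) : Fin 4 := if s = 0 then (if t = 0 then 0 else 3) else if t = 0 then 1 else 2

def sb (y : Fin 4) : ZMod 2 := ![0, 1, 1, 0] y

def tb (y : Fin 4) : ZMod 2 := ![0, 0, 1, 1] y

theorem forces_of {d : ℕ} (h : ∀ g : Vc d → Vc d → ZMod 2, ¬ NM g) : Forces 4 d := by
  intro col
  have h0 := h fun U t => if col (fun j => lt (U j) (t j)) then 1 else 0
  simp only [NM, not_forall, not_not] at h0
  obtain ⟨U, W, t, h1, h2, e1, e2, e3⟩ := h0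
  have inj : ∀ a b : Bool, (if a = true then (1 : ZMod 2) else 0) = (if b = true then 1 else 0) →
      b = a := by decide
  let x : Fin 4 → Fin d → Fin 4 := fun i j =>
    ![lt (U j) (t j), lt (W j) (t j), lt (W j) (t j + U j + W j), lt (U j) (t j + U j + W j)] i
  have key : ∀ u w s : ZMod 2, (u = 1 → w = 1) →
      ((u = w ∧ ∃ c, ∀ i, ![lt u s, lt w s, lt w (s + u + w), lt u (s + u + w)] i = c) ∨
        (∀ i, ![lt u s, lt w s, lt w (s + u + w), lt u (s + u + w)] i = i) ∨
        ∀ i, ![lt u s, lt w s, lt w (s + u + w), lt u (s + u + w)] i = i.rev) := by decide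
  refine ⟨x, ⟨fun i i' e => ?_, fun j => (key _ _ _ (h1 j)).imp_left And.right⟩, col (x 0),
    fun i => ?_⟩
  · obtain ⟨j, hj⟩ := Function.ne_iff.1 h2
    have e' := congrFun e j
    rcases key _ _ (t j) (h1 j) with h | h | h
    · exact absurd h.1 hj
    · exact (h i).symm.trans (e'.trans (h i'))
    · exact Fin.rev_injective ((h i).symm.trans (e'.trans (h i')))
  · fin_cases i
    · rfl
    · exact inj _ _ e2
    · exact inj _ _ e3
    · exact inj _ _ e1

theorem not_forces_of {d : ℕ} (g : Vc d → Vc d → ZMod 2) (h : NM g) : ¬ Forces 4 d := by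
  intro hf
  obtain ⟨x, ⟨h1, h2⟩, b, h3⟩ := hf fun y => decide (g (fun j => sb (y j)) (fun j => tb (y j)) = 0)
  have key : ∀ j, (sb (x 0 j) = 1 → sb (x 1 j) = 1) ∧ (sb (x 0 j) = sb (x 1 j) → x 0 j = x 1 j) ∧
      sb (x 2 j) = sb (x 1 j) ∧ sb (x 3 j) = sb (x 0 j) ∧ tb (x 1 j) = tb (x 0 j) ∧
      tb (x 2 j) = tb (x 0 j) + sb (x 0 j) + sb (x 1 j) ∧
      tb (x 3 j) = tb (x 0 j) + sb (x 0 j) + sb (x 1 j) := by
    intro j
    rcases h2 j with ⟨c, h⟩ | h | h <;> simp only [h]
    · clear h
      revert c
      decide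
    · decide
    · decide
  have inj : ∀ a b : ZMod 2, decide (a = 0) = decide (b = 0) → a = b := by decide
  refine h (fun j => sb (x 0 j)) (fun j => sb (x 1 j)) (fun j => tb (x 0 j)) (fun j => (key j).1)
    (fun e => absurd (h1 (funext fun j => (key j).2.1 (congrFun e j))) (by decide)) ⟨?_, ?_, ?_⟩
  · have := inj _ _ ((h3 0).trans (h3 3).symm)
    simp only [(key _).2.2.2.1, (key _).2.2.2.2.2.2] at this
    exact this
  · have := inj _ _ ((h3 0).trans (h3 1).symm)
    simp only [(key _).2.2.2.2.1] at this
    exact this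
  · have := inj _ _ ((h3 0).trans (h3 2).symm)
    simp only [(key _).2.2.1, (key _).2.2.2.2.2.1] at this
    exact this

theorem forces_156 : Forces 4 156 := forces_of not_NM

theorem not_forces_8 : ¬ Forces 4 8 := not_forces_of g8 NM_g8

end Pool.Agent.MP_c9a892_co.H39
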