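import Mathlib

/-! Sums of squares and weighted sums used for the upper bound. -/

namespace Pool.Agent.MP_c9a892_co.H39

open Finset

theorem formAB (F : ℕ → ℕ → ℤ) (d : ℕ) :
    ∑ b ∈ range (d + 1), ∑ a ∈ range b, F a b =
      ∑ a ∈ range (d + 1), ∑ s ∈ range (d - a), F a (a + s + 1) := by
  rw [sum_range_succ' (fun b => ∑ a ∈ range b, F a b), sum_range_succ _ d]
  simp only [range_zero, sum_empty, add_zero, Nat.sub_self]
  rw [← sum_range_diag_flip d (fun a s => F a (a + s + 1))]
  refine sum_congr rfl fun m _ => sum_congr rfl fun k hk => ?_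
  have := mem_range.1 hk
  congr 1
  omega

theorem sym_split (F : ℕ → ℕ → ℤ) (h : ∀ a b, F a b = F b a) (n : ℕ) :
    ∑ a ∈ range n, ∑ b ∈ range n, F a b =
      ∑ a ∈ range n, F a a + 2 * ∑ b ∈ range n, ∑ a ∈ range b, F a b := by
  induction n with
  | zero => simp
  | succ n ih =>
    simp only [sum_range_succ, sum_add_distrib, ih]
    have : ∑ b ∈ range n, F n b = ∑ a ∈ range n, F a n := sum_congr rfl fun b _ => h n b
    rw [this]
    ring

variable {Ω : Type} [Fintype Ω]

theorem toeplitz (v : ℕ → Ω → ℤ) (hv : ∀ x ω, v x ω * v x ω = 1) (φ : ℕ → ℤ) (n : ℕ)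
    (h : ∀ x y, x < y → y ≤ n → ∑ ω, v x ω * v y ω = φ (y - x)) :
    0 ≤ ((n : ℤ) + 1) * Fintype.card Ω + 2 * ∑ s ∈ range n, ((n : ℤ) - s) * φ (s + 1) := by
  have key : ∀ k, k ≤ n → ∑ ω, (∑ x ∈ range (k + 1), v x ω) ^ 2 =
      ((k : ℤ) + 1) * Fintype.card Ω + 2 * ∑ s ∈ range k, ((k : ℤ) - s) * φ (s + 1) := by
    intro k
    induction k with
    | zero => intro _; simp [sq, hv]
    | succ k ih =>
      intro hk
      have h1 : ∑ ω, (∑ x ∈ range (k + 1), v x ω) * v (k + 1) ω =
          ∑ s ∈ range (k + 1), φ (s + 1) := by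
        simp only [sum_mul]
        rw [sum_comm, ← sum_range_reflect (fun s => φ (s + 1))]
        refine sum_congr rfl fun x hx => ?_
        have := mem_range.1 hx
        rw [h x (k + 1) this hk]
        congr 1
        omega
      have h2 : ∀ ω, (∑ x ∈ range (k + 1 + 1), v x ω) ^ 2 = (∑ x ∈ range (k + 1), v x ω) ^ 2 +
          2 * ((∑ x ∈ range (k + 1), v x ω) * v (k + 1) ω) + 1 := by
        intro ω
        rw [sum_range_succ _ (k + 1), ← hv (k + 1) ω]
        ring
      have h3 : ∑ s ∈ range (k + 1), (((k + 1 : ℕ) : ℤ) - s) * φ (s + 1) =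
          ∑ s ∈ range k, ((k : ℤ) - s) * φ (s + 1) + ∑ s ∈ range (k + 1), φ (s + 1) := by
        have : ∑ s ∈ range k, ((k : ℤ) - s) * φ (s + 1) =
            ∑ s ∈ range (k + 1), ((k : ℤ) - s) * φ (s + 1) := by simp [sum_range_succ]
        rw [this, ← sum_add_distrib]
        refine sum_congr rfl fun s _ => ?_
        push_cast
        ring
      simp only [h2, sum_add_distrib, ← mul_sum, h1, ih (by omega), h3]
      simp only [sum_const, card_univ, nsmul_eq_mul, mul_one]
      push_cast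
      ring
  rw [← key n le_rfl]
  exact sum_nonneg fun ω _ => sq_nonneg _

theorem cnt_le (n a : ℕ) (h : a < n) :
    ∑ x ∈ range n, (if x ≤ a then (1 : ℤ) else 0) = a + 1 := by
  rw [← sum_filter]
  have : (range n).filter (· ≤ a) = range (a + 1) := by
    ext x
    simp only [mem_filter, mem_range]
    omega
  simp [this]

theorem cnt_ge (n b : ℕ) (h : b < n) :
    ∑ y ∈ range n, (if b ≤ y then (1 : ℤ) else 0) = n - b := by
  rw [← sum_filter]
  have : (range n).filter (b ≤ ·) = Ico b n := by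
    ext x
    simp only [mem_filter, mem_range, mem_Ico]
    omega
  simp [this, h.le]

theorem green (v : ℕ → Ω → ℤ) (hv : ∀ x ω, v x ω * v x ω = 1) (n : ℕ) :
    0 ≤ (∑ a ∈ range n, ((a : ℤ) + 1) * (n - a)) * Fintype.card Ω +
      2 * ∑ b ∈ range n, ∑ a ∈ range b, ((a : ℤ) + 1) * (n - b) * ∑ ω, v a ω * v b ω := by
  let I : ℕ → ℕ → ℕ → ℤ := fun x y a => if x ≤ a ∧ a ≤ y then 1 else 0
  let F : ℕ → ℕ → ℤ := fun a b =>
    (∑ x ∈ range n, ∑ y ∈ range n, I x y a * I x y b) * ∑ ω, v a ω * v b ω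
  have h0 : 0 ≤ ∑ a ∈ range n, ∑ b ∈ range n, F a b := by
    have : ∑ a ∈ range n, ∑ b ∈ range n, F a b =
        ∑ x ∈ range n, ∑ y ∈ range n, ∑ ω, (∑ a ∈ range n, I x y a * v a ω) ^ 2 := by
      simp only [F, sq, sum_mul]
      simp only [mul_sum]
      symm
      calc _ = ∑ x ∈ range n, ∑ y ∈ range n, ∑ a ∈ range n, ∑ b ∈ range n, ∑ ω,
            I x y a * I x y b * (v a ω * v b ω) := by
            refine sum_congr rfl fun x _ => sum_congr rfl fun y _ => ?_
            rw [sum_comm]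
            refine sum_congr rfl fun a _ => ?_
            rw [sum_comm]
            exact sum_congr rfl fun b _ => sum_congr rfl fun ω _ => by ring
        _ = ∑ x ∈ range n, ∑ a ∈ range n, ∑ b ∈ range n, ∑ y ∈ range n, ∑ ω,
            I x y a * I x y b * (v a ω * v b ω) := by
            refine sum_congr rfl fun x _ => ?_
            rw [sum_comm]
            exact sum_congr rfl fun a _ => sum_comm
        _ = _ := by
            rw [sum_comm]
            exact sum_congr rfl fun a _ => sum_comm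
    rw [this]
    exact sum_nonneg fun _ _ => sum_nonneg fun _ _ => sum_nonneg fun _ _ => sq_nonneg _
  have h1 : ∀ a b, a ≤ b → b < n →
      ∑ x ∈ range n, ∑ y ∈ range n, I x y a * I x y b = ((a : ℤ) + 1) * (n - b) := by
    intro a b hab hb
    rw [← cnt_le n a (by omega), ← cnt_ge n b hb, sum_mul_sum]
    refine sum_congr rfl fun x _ => sum_congr rfl fun y _ => ?_
    simp only [I]
    split_ifs <;> first | rfl | omega
  rw [sym_split F (fun a b => by simp only [F, mul_comm])] at h0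
  convert h0 using 2
  · rw [sum_mul]
    refine sum_congr rfl fun a ha => ?_
    simp only [F, h1 a a le_rfl (mem_range.1 ha), hv]
    simp
  · congr 1
    refine sum_congr rfl fun b hb => sum_congr rfl fun a ha => ?_
    simp only [F, h1 a b (mem_range.1 ha).le (mem_range.1 hb)]

/-- the average over the lower (or upper) halves of the configurations -/
def Lo (m : ℕ) (F : ℕ → ℤ) : ℤ :=
  ∑ p ∈ range m, ∑ s ∈ range (m - 1 - p),
    ((p : ℤ) + 1) * (F m + F p + F (p + s + 1) + F (m - 1 - s))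

def cc (m a : ℕ) : ℤ := if a < m then 6 else if a = m then m else 0

theorem sum_pyr (k : ℕ) :
    6 * ∑ p ∈ range (k + 1), ((p : ℤ) + 1) * (k - p) = (k + 2) * (k + 1) * k := by
  have h : ∀ n : ℕ, 2 * ∑ p ∈ range n, ((p : ℤ) + 1) = n * (n + 1) := by
    intro n
    induction n with
    | zero => simp
    | succ n ih => rw [sum_range_succ, mul_add, ih]; push_cast; ring
  induction k with
  | zero => simp
  | succ k ih =>
    have : ∑ p ∈ range (k + 1 + 1), ((p : ℤ) + 1) * ((k + 1 : ℕ) - p) =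
        ∑ p ∈ range (k + 1), ((p : ℤ) + 1) * (k - p) + ∑ p ∈ range (k + 1), ((p : ℤ) + 1) := by
      rw [sum_range_succ, ← sum_add_distrib]
      simp only [sub_self, mul_zero, add_zero]
      exact sum_congr rfl fun p _ => by push_cast; ring
    have h2 := h (k + 1)
    rw [this]
    push_cast at h2 ⊢
    linear_combination ih + 3 * h2

theorem Lo_eq (k d : ℕ) (hd : k + 1 ≤ d) (F : ℕ → ℤ) :
    6 * Lo (k + 1) F = k * ∑ a ∈ range (d + 1), ((a : ℤ) + 1) * cc (k + 1) a * F a := by
  have h : ∀ n : ℕ, 2 * ∑ p ∈ range n, ((p : ℤ) + 1) = n * (n + 1) := by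
    intro n
    induction n with
    | zero => simp
    | succ n ih => rw [sum_range_succ, mul_add, ih]; push_cast; ring
  have e1 : ∑ a ∈ range (d + 1), ((a : ℤ) + 1) * cc (k + 1) a * F a =
      6 * ∑ a ∈ range (k + 1), ((a : ℤ) + 1) * F a + (k + 2) * (k + 1) * F (k + 1) := by
    rw [← sum_subset (s₁ := range (k + 1 + 1)) (range_mono (by omega)) fun x _ hx => by
      have : ¬ x < k + 1 + 1 := by simpa using hx
      rw [cc, if_neg (by omega), if_neg (by omega), mul_zero, zero_mul], sum_range_succ, mul_sum]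
    congr 1
    · exact sum_congr rfl fun a ha => by rw [cc, if_pos (mem_range.1 ha)]; ring
    · rw [cc, if_neg (lt_irrefl _), if_pos rfl]
      push_cast
      ring
  have e2 : ∀ p ∈ range (k + 1), ∑ s ∈ range (k - p), F (k - s) =
      ∑ s ∈ range (k - p), F (p + s + 1) := by
    intro p hp
    rw [← sum_range_reflect]
    refine sum_congr rfl fun s hs => ?_
    have := mem_range.1 hs
    congr 1
    omega
  have e3 : 2 * ∑ p ∈ range (k + 1), ∑ s ∈ range (k - p), ((p : ℤ) + 1) * F (p + s + 1) =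
      ∑ q ∈ range (k + 1), (q : ℤ) * (q + 1) * F q := by
    rw [← formAB (fun a b => ((a : ℤ) + 1) * F b), mul_sum]
    exact sum_congr rfl fun q _ => by rw [← sum_mul, ← mul_assoc, h]
  have e4 : Lo (k + 1) F = (∑ p ∈ range (k + 1), ((p : ℤ) + 1) * (k - p)) * F (k + 1) +
      ∑ p ∈ range (k + 1), ((p : ℤ) + 1) * (k - p) * F p +
      2 * ∑ p ∈ range (k + 1), ∑ s ∈ range (k - p), ((p : ℤ) + 1) * F (p + s + 1) := by
    rw [Lo, sum_mul, mul_sum, ← sum_add_distrib, ← sum_add_distrib]
    refine sum_congr rfl fun p hp => ?_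
    have hp' : p ≤ k := Nat.lt_succ_iff.1 (mem_range.1 hp)
    simp only [Nat.add_sub_cancel, ← mul_sum, sum_add_distrib, e2 p hp, sum_const, card_range,
      nsmul_eq_mul, Nat.cast_sub hp']
    ring
  have e5 : ∑ p ∈ range (k + 1), ((p : ℤ) + 1) * (k - p) * F p +
      ∑ q ∈ range (k + 1), (q : ℤ) * (q + 1) * F q =
      k * ∑ a ∈ range (k + 1), ((a : ℤ) + 1) * F a := by
    rw [mul_sum, ← sum_add_distrib]
    exact sum_congr rfl fun p _ => by ring
  rw [e4, e3, e1]
  linear_combination F (k + 1) * sum_pyr k + 6 * e5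

theorem Lo_ge (k : ℕ) (F : ℕ → ℤ) (c : ℤ)
    (h : ∀ p s, p + s < k → c ≤ F (k + 1) + F p + F (p + s + 1) + F (k - s)) :
    (k + 2) * (k + 1) * k * c ≤ 6 * Lo (k + 1) F := by
  rw [← sum_pyr, mul_assoc, Lo, sum_mul]
  refine mul_le_mul_of_nonneg_left (sum_le_sum fun p hp => ?_) (by norm_num)
  have hp' : p ≤ k := Nat.lt_succ_iff.1 (mem_range.1 hp)
  rw [← mul_sum, mul_assoc]
  refine mul_le_mul_of_nonneg_left ?_ (by positivity)
  have := card_nsmul_le_sum (range (k - p)) _ c fun s hs => h p s (by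
    have := mem_range.1 hs
    omega)
  simpa [Nat.cast_sub hp'] using this

theorem Lo_add4 (m : ℕ) (F G H K : ℕ → ℤ) :
    Lo m F + Lo m G + Lo m H + Lo m K = Lo m fun y => F y + G y + H y + K y := by
  simp only [Lo, ← sum_add_distrib]
  exact sum_congr rfl fun p _ => sum_congr rfl fun s _ => by ring

/-- the inequality for one middle level -/
theorem level (d k l : ℕ) (hd : k + 1 + (l + 1) = d) (hk : 0 < k) (hl : 0 < l) (G : ℕ → ℕ → ℤ)
    (c : ℤ) (h : ∀ p s p' s', p + s < k → p' + s' < l → c ≤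
      (G (k + 1) (l + 1) + G p (l + 1) + G (p + s + 1) (l + 1) + G (k - s) (l + 1)) +
      (G (k + 1) p' + G p p' + G (p + s + 1) p' + G (k - s) p') +
      (G (k + 1) (p' + s' + 1) + G p (p' + s' + 1) + G (p + s + 1) (p' + s' + 1) +
        G (k - s) (p' + s' + 1)) +
      (G (k + 1) (l - s') + G p (l - s') + G (p + s + 1) (l - s') + G (k - s) (l - s'))) :
    (k + 2) * (k + 1) * ((l + 2) * (l + 1)) * c ≤ ∑ a ∈ range (d + 1), ∑ r ∈ range (d + 1),
      ((a : ℤ) + 1) * (r + 1) * G a r * (cc (k + 1) a * cc (l + 1) r) := by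
  have h1 := Lo_ge k (fun x => 6 * Lo (l + 1) (G x)) ((l + 2) * (l + 1) * l * c) fun p s hp => by
    rw [← mul_add, ← mul_add, ← mul_add, Lo_add4]
    exact Lo_ge l _ c fun p' s' hp' => h p s p' s' hp hp'
  rw [Lo_eq k d (by omega)] at h1
  simp only [Lo_eq l d (by omega)] at h1
  have h2 : ∑ a ∈ range (d + 1), ((a : ℤ) + 1) * cc (k + 1) a *
      (l * ∑ r ∈ range (d + 1), ((r : ℤ) + 1) * cc (l + 1) r * G a r) =
      l * ∑ a ∈ range (d + 1), ∑ r ∈ range (d + 1),
        ((a : ℤ) + 1) * (r + 1) * G a r * (cc (k + 1) a * cc (l + 1) r) := by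
    simp only [mul_sum]
    exact sum_congr rfl fun a _ => sum_congr rfl fun r _ => by ring
  rw [h2] at h1
  have hkl : (0 : ℤ) < k * l := by positivity
  refine le_of_mul_le_mul_left ?_ hkl
  linarith

end Pool.Agent.MP_c9a892_co.H39
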