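import Pool.Agent.MP_c9a892_co.H39.Corr

/-! Averaging over chains: no colouring without monochromatic line in dimension 156. -/

namespace Pool.Agent.MP_c9a892_co.H39

open Finset

variable {d : ℕ}

theorem perm_fin (U W U' W' : Finset (Fin d)) (h : U ⊆ W) (h' : U' ⊆ W') (c1 : U.card = U'.card)
    (c2 : W.card = W'.card) :
    ∃ σ : Equiv.Perm (Fin d), ∀ j, (σ j ∈ U ↔ j ∈ U') ∧ (σ j ∈ W ↔ j ∈ W') := by
  let f : Finset (Fin d) → Finset (Fin d) → Fin d → Bool × Bool := fun U W j =>
    (decide (j ∈ U), decide (j ∈ W))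
  have key : ∀ U W : Finset (Fin d), U ⊆ W → ∀ c, Fintype.card {j // f U W j = c} =
      if c.1 then (if c.2 then U.card else 0) else if c.2 then W.card - U.card else d - W.card := by
    intro U W h c
    rw [Fintype.card_subtype]
    obtain ⟨x, y⟩ := c
    cases x <;> cases y <;> simp only [f, Prod.mk.injEq, decide_eq_true_eq, decide_eq_false_iff_not,
      Bool.false_eq_true, if_true, if_false]
    · have : Wᶜ.card = d - W.card := by rw [card_compl, Fintype.card_fin]
      rw [← this]
      congr 1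
      ext j
      simp only [mem_filter, mem_univ, true_and, mem_compl]
      exact ⟨fun h => h.2, fun h1 => ⟨fun h2 => h1 (h h2), h1⟩⟩
    · rw [← card_sdiff_of_subset h]
      congr 1
      ext j
      simp [and_comm]
    · rw [card_eq_zero, filter_eq_empty_iff]
      exact fun j _ h1 => h1.2 (h h1.1)
    · congr 1
      ext j
      simp only [mem_filter, mem_univ, true_and]
      exact ⟨fun h => h.1, fun h1 => ⟨h1, h h1⟩⟩
  let e : ∀ c, {j // f U' W' j = c} ≃ {j // f U W j = c} := fun c =>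
    Fintype.equivOfCardEq (by rw [key U W h, key U' W' h', c1, c2])
  refine ⟨Equiv.ofFiberEquiv e, fun j => ?_⟩
  have := Equiv.ofFiberEquiv_map e j
  simpa [f] using this

/-- the indicator vector of a set of positions, for an ordering of the coordinates -/
def vec (X : Finset ℕ) (π : Equiv.Perm (Fin d)) : Vc d := fun j => if (π j : ℕ) ∈ X then 1 else 0

def avg (Φ : Vc d → Vc d → ℤ) (X Y : Finset ℕ) : ℤ := ∑ π, Φ (vec X π) (vec Y π)

theorem avg_eq (Φ : Vc d → Vc d → ℤ) {X Y : Finset ℕ} {a b : ℕ} (h : X ⊆ Y) (hY : Y ⊆ range d)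
    (ha : X.card = a) (hb : Y.card = b) : avg Φ X Y = avg Φ (range a) (range b) := by
  have hab : a ≤ b := ha ▸ hb ▸ card_le_card h
  have hbd : b ≤ d := by simpa [hb] using card_le_card hY
  have m1 : ∀ m ∈ Y, m < d := fun m hm => mem_range.1 (hY hm)
  have m2 : ∀ m ∈ X, m < d := fun m hm => m1 m (h hm)
  have m3 : ∀ m ∈ range b, m < d := fun m hm => (mem_range.1 hm).trans_le hbd
  have m4 : ∀ m ∈ range a, m < d := fun m hm => (mem_range.1 hm).trans_le (hab.trans hbd)
  obtain ⟨σ, hσ⟩ := perm_fin (X.attachFin m2) (Y.attachFin m1) ((range a).attachFin m4)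
    ((range b).attachFin m3) (fun j hj => by simpa using h (by simpa using hj))
    (fun j hj => by simp only [mem_attachFin, mem_range] at hj ⊢; omega) (by simp [ha])
    (by simp [hb])
  simp only [mem_attachFin] at hσ
  rw [avg, avg, ← Equiv.sum_comp (Equiv.mulLeft σ)]
  refine sum_congr rfl fun π _ => ?_
  congr 1 <;> funext j
  · simp only [vec, Equiv.coe_mulLeft, Equiv.Perm.mul_apply, (hσ _).1]
  · simp only [vec, Equiv.coe_mulLeft, Equiv.Perm.mul_apply, (hσ _).2]

theorem vec_gap (a x y : ℕ) (h1 : a ≤ x) (h2 : x ≤ y) (π : Equiv.Perm (Fin d)) :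
    vec (range a) π + vec (range x) π + vec (range a ∪ Ico x y) π = vec (range y) π := by
  funext j
  simp only [vec, Pi.add_apply, mem_union, mem_range, mem_Ico]
  split_ifs <;> first | rfl | omega

theorem card_gap (a x y : ℕ) (h1 : a ≤ x) : (range a ∪ Ico x y).card = a + (y - x) := by
  rw [card_union_of_disjoint, card_range, Nat.card_Ico]
  rw [disjoint_left]
  intro z h2 h3
  simp only [mem_range, mem_Ico] at h2 h3
  omega

theorem gap_sub (a x y : ℕ) (h1 : a ≤ x) (h2 : x ≤ y) : range a ∪ Ico x y ⊆ range y := by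
  intro z
  simp only [mem_union, mem_range, mem_Ico]
  omega

variable (g : Vc d → Vc d → ZMod 2)

/-- values on the standard chain -/
def lv (Φ : Vc d → Vc d → ℤ) (a b : ℕ) : ℤ := avg Φ (range a) (range b)

/-- the size of the sample space -/
def MM (d : ℕ) : ℤ := Fintype.card (Equiv.Perm (Fin d) × Vc d)

theorem sos_A (a : ℕ) (ha : a ≤ d) : 0 ≤ (((d - a : ℕ) : ℤ) + 1) * MM d +
    2 * ∑ s ∈ range (d - a), (((d - a : ℕ) : ℤ) - s) * lv (PA g) a (a + (s + 1)) := by
  refine toeplitz (fun x (ω : Equiv.Perm (Fin d) × Vc d) =>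
    sg (g (vec (range a) ω.1) (ω.2 + vec (range (a + x)) ω.1))) (fun _ _ => sg_sq _)
    (fun s => lv (PA g) a (a + s)) (d - a) fun x y hxy hy => ?_
  rw [lv, ← avg_eq (PA g) (X := range a) (Y := range a ∪ Ico (a + x) (a + y)) subset_union_left
    ((gap_sub _ _ _ (by omega) (by omega)).trans (range_mono (by omega))) (card_range a)
    (by rw [card_gap _ _ _ (by omega)]; omega), Fintype.sum_prod_type, avg]
  refine sum_congr rfl fun π _ => ?_
  rw [← sum_shift _ (vec (range (a + x)) π), PA]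
  refine sum_congr rfl fun t _ => ?_
  rw [← vec_gap a (a + x) (a + y) (by omega) (by omega) π]
  congr 3
  · linear_combination vc_self (vec (range (a + x)) π)
  · linear_combination vc_self (vec (range (a + x)) π)

theorem sos_B (b : ℕ) (hb : b ≤ d) : 0 ≤ ((b : ℤ) + 1) * MM d +
    2 * ∑ s ∈ range b, ((b : ℤ) - s) * lv (PB g) (b - (s + 1)) b := by
  refine toeplitz (fun x (ω : Equiv.Perm (Fin d) × Vc d) =>
    sg (g (vec (range b) ω.1) (ω.2 + vec (range x) ω.1))) (fun _ _ => sg_sq _)
    (fun s => lv (PB g) (b - s) b) b fun x y hxy hy => ?_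
  rw [lv, ← avg_eq (PB g) (X := range x ∪ Ico y b) (Y := range b) (gap_sub _ _ _ hxy.le hy)
    (range_mono hb) (by rw [card_gap _ _ _ hxy.le]; omega) (card_range b),
    Fintype.sum_prod_type, avg]
  refine sum_congr rfl fun π _ => ?_
  rw [← sum_shift _ (vec (range x) π), PB]
  refine sum_congr rfl fun t _ => ?_
  have h := vec_gap x y b hxy.le hy π
  congr 3
  · linear_combination vc_self (vec (range x) π)
  · linear_combination h - vc_self (vec (range x ∪ Ico y b) π)

theorem sos_G : 0 ≤ (∑ a ∈ range (d + 1), ((a : ℤ) + 1) * ((d + 1 : ℕ) - a)) * MM d +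
    2 * ∑ b ∈ range (d + 1), ∑ a ∈ range b, ((a : ℤ) + 1) * ((d + 1 : ℕ) - b) * lv (PG g) a b := by
  have := green (fun x (ω : Equiv.Perm (Fin d) × Vc d) => sg (g (vec (range x) ω.1) ω.2))
    (fun _ _ => sg_sq _) (d + 1)
  simp only [Fintype.sum_prod_type] at this
  exact this

theorem sos_D : 0 ≤ (∑ a ∈ range (d + 1), ((a : ℤ) + 1) * ((d + 1 : ℕ) - a)) * MM d +
    2 * ∑ b ∈ range (d + 1), ∑ a ∈ range b, ((a : ℤ) + 1) * ((d + 1 : ℕ) - b) * lv (PD g) a b := by
  have := green (fun x (ω : Equiv.Perm (Fin d) × Vc d) =>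
    sg (g (vec (range x) ω.1) (ω.2 + vec (range x) ω.1))) (fun _ _ => sg_sq _) (d + 1)
  simp only [Fintype.sum_prod_type] at this
  exact this

theorem lv_eq (h : NM g) (a b : ℕ) (hab : a < b) (hb : b ≤ d) : lv (PE g) a b =
    -(lv (PA g) a b + lv (PB g) a b + 2 * lv (PG g) a b + 2 * lv (PD g) a b) := by
  simp only [lv, avg, mul_sum, ← sum_add_distrib, ← sum_neg_distrib]
  refine sum_congr rfl fun π _ => PE_eq g h _ _ (fun j => ?_) fun h1 => ?_
  · simp only [vec, mem_range]
    split_ifs <;> first | omega | simp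
  · have := congrFun h1 (π.symm ⟨a, by omega⟩)
    simp [vec, hab] at this

theorem upper (h : NM g) :
    ∑ b ∈ range (d + 1), ∑ a ∈ range b, ((a : ℤ) + 1) * ((d + 1 : ℕ) - b) * lv (PE g) a b ≤
      3 * (∑ a ∈ range (d + 1), ((a : ℤ) + 1) * ((d + 1 : ℕ) - a)) * MM d := by
  have hA : 0 ≤ (∑ a ∈ range (d + 1), ((a : ℤ) + 1) * ((d + 1 : ℕ) - a)) * MM d +
      2 * ∑ b ∈ range (d + 1), ∑ a ∈ range b,
        ((a : ℤ) + 1) * ((d + 1 : ℕ) - b) * lv (PA g) a b := by
    rw [formAB, sum_mul, mul_sum, ← sum_add_distrib]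
    refine sum_nonneg fun a ha => ?_
    have ha' : a ≤ d := Nat.lt_succ_iff.1 (mem_range.1 ha)
    have := mul_nonneg (by positivity : (0 : ℤ) ≤ a + 1) (sos_A g a ha')
    convert this using 1
    rw [mul_add, mul_sum, mul_sum, mul_sum, Nat.cast_sub ha']
    congr 1
    · push_cast; ring
    · exact sum_congr rfl fun s _ => by rw [add_assoc a s 1]; push_cast; ring
  have hB : 0 ≤ (∑ a ∈ range (d + 1), ((a : ℤ) + 1) * ((d + 1 : ℕ) - a)) * MM d +
      2 * ∑ b ∈ range (d + 1), ∑ a ∈ range b,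
        ((a : ℤ) + 1) * ((d + 1 : ℕ) - b) * lv (PB g) a b := by
    rw [sum_mul, mul_sum, ← sum_add_distrib]
    refine sum_nonneg fun b hb => ?_
    have hb' : b ≤ d := Nat.lt_succ_iff.1 (mem_range.1 hb)
    have := mul_nonneg (by push_cast; omega : (0 : ℤ) ≤ (d + 1 : ℕ) - b) (sos_B g b hb')
    convert this using 1
    rw [← sum_range_reflect, mul_add, mul_sum, mul_sum, mul_sum]
    congr 1
    · ring
    · refine sum_congr rfl fun s hs => ?_
      have := mem_range.1 hs
      rw [show b - (s + 1) = b - 1 - s by omega, show ((b - 1 - s : ℕ) : ℤ) = b - 1 - s by omega]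
      ring
  have hG := sos_G g
  have hD := sos_D g
  have e : ∑ b ∈ range (d + 1), ∑ a ∈ range b, ((a : ℤ) + 1) * ((d + 1 : ℕ) - b) * lv (PE g) a b =
      -(∑ b ∈ range (d + 1), ∑ a ∈ range b, ((a : ℤ) + 1) * ((d + 1 : ℕ) - b) * lv (PA g) a b +
      ∑ b ∈ range (d + 1), ∑ a ∈ range b, ((a : ℤ) + 1) * ((d + 1 : ℕ) - b) * lv (PB g) a b +
      2 * ∑ b ∈ range (d + 1), ∑ a ∈ range b, ((a : ℤ) + 1) * ((d + 1 : ℕ) - b) * lv (PG g) a b +
      2 * ∑ b ∈ range (d + 1), ∑ a ∈ range b,
        ((a : ℤ) + 1) * ((d + 1 : ℕ) - b) * lv (PD g) a b) := by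
    simp only [mul_sum, ← sum_add_distrib, ← sum_neg_distrib]
    refine sum_congr rfl fun b hb => sum_congr rfl fun a ha => ?_
    rw [lv_eq g h a b (mem_range.1 ha) (Nat.lt_succ_iff.1 (mem_range.1 hb))]
    ring
  rw [e]
  linarith

/-- the number of even lines between the levels `x` and `d - y` -/
def GG (x y : ℕ) : ℤ := if x + y < d then lv (PE g) x (d - y) else 0

theorem GG_nonneg (x y : ℕ) : 0 ≤ GG g x y := by
  unfold GG
  split_ifs
  · exact sum_nonneg fun _ _ => PE_nonneg g _ _
  · exact le_rfl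

theorem config (k l p s p' s' : ℕ) (hd : k + 1 + (l + 1) = d) (h1 : p + s < k) (h2 : p' + s' < l) :
    2 * MM d ≤
      (GG g (k + 1) (l + 1) + GG g p (l + 1) + GG g (p + s + 1) (l + 1) + GG g (k - s) (l + 1)) +
      (GG g (k + 1) p' + GG g p p' + GG g (p + s + 1) p' + GG g (k - s) p') +
      (GG g (k + 1) (p' + s' + 1) + GG g p (p' + s' + 1) + GG g (p + s + 1) (p' + s' + 1) +
        GG g (k - s) (p' + s' + 1)) +
      (GG g (k + 1) (l - s') + GG g p (l - s') + GG g (p + s + 1) (l - s') +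
        GG g (k - s) (l - s')) := by
  have key : ∀ (X Y : Finset ℕ) (x y : ℕ), X ⊆ range (k + 1) → range (k + 1) ⊆ Y → Y ⊆ range d →
      X.card = x → Y.card = d - y → x + y < d → GG g x y = avg (PE g) X Y :=
    fun X Y x y a1 a2 a3 a4 a5 a6 => by
      rw [GG, if_pos a6, lv, avg_eq (PE g) (a1.trans a2) a3 a4 a5]
  have l0 := fun Y y => key (range p) Y p y (range_mono (by omega))
  have l4 := fun Y y => key (range (p + s + 1)) Y (p + s + 1) y (range_mono (by omega))
  have l8 := fun Y y => key (range p ∪ Ico (p + s + 1) (k + 1)) Y (k - s) y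
    (gap_sub _ _ _ (by omega) (by omega))
  have l12 := fun Y y => key (range (k + 1)) Y (k + 1) y subset_rfl
  have c8 : (range p ∪ Ico (p + s + 1) (k + 1)).card = k - s := by
    rw [card_gap _ _ _ (by omega)]; omega
  have c14 : (range (k + 1) ∪ Ico (d - (p' + s' + 1)) (d - p')).card = d - (l - s') := by
    rw [card_gap _ _ _ (by omega)]; omega
  have a12 : range (k + 1) ⊆ range d := range_mono (by omega)
  have c12 : (range (k + 1)).card = d - (l + 1) := by rw [card_range]; omega
  have a13 : range (k + 1) ⊆ range (d - (p' + s' + 1)) := range_mono (by omega)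
  have b13 : range (d - (p' + s' + 1)) ⊆ range d := range_mono (by omega)
  have a14 : range (k + 1) ⊆ range (k + 1) ∪ Ico (d - (p' + s' + 1)) (d - p') := subset_union_left
  have b14 : range (k + 1) ∪ Ico (d - (p' + s' + 1)) (d - p') ⊆ range d :=
    (gap_sub _ _ _ (by omega) (by omega)).trans (range_mono (by omega))
  have a15 : range (k + 1) ⊆ range (d - p') := range_mono (by omega)
  have b15 : range (d - p') ⊆ range d := range_mono (by omega)
  rw [show GG g (k + 1) (l + 1) = 0 from if_neg (by omega),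
    l0 _ _ subset_rfl a12 (card_range _) c12 (by omega),
    l0 _ _ a13 b13 (card_range _) (card_range _) (by omega),
    l0 _ _ a14 b14 (card_range _) c14 (by omega),
    l0 _ _ a15 b15 (card_range _) (card_range _) (by omega),
    l4 _ _ subset_rfl a12 (card_range _) c12 (by omega),
    l4 _ _ a13 b13 (card_range _) (card_range _) (by omega),
    l4 _ _ a14 b14 (card_range _) c14 (by omega),
    l4 _ _ a15 b15 (card_range _) (card_range _) (by omega),
    l8 _ _ subset_rfl a12 c8 c12 (by omega),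
    l8 _ _ a13 b13 c8 (card_range _) (by omega),
    l8 _ _ a14 b14 c8 c14 (by omega),
    l8 _ _ a15 b15 c8 (card_range _) (by omega),
    l12 _ _ a13 b13 (card_range _) (card_range _) (by omega),
    l12 _ _ a14 b14 (card_range _) c14 (by omega),
    l12 _ _ a15 b15 (card_range _) (card_range _) (by omega)]
  have := card_nsmul_le_sum univ _ _ fun (π : Equiv.Perm (Fin d)) _ => parity g _ _ _ _ _ _ _
    (vec_gap p (p + s + 1) (k + 1) (by omega) (by omega) π)
    (vec_gap (k + 1) (d - (p' + s' + 1)) (d - p') (by omega) (by omega) π)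
  simp only [sum_add_distrib, card_univ, nsmul_eq_mul] at this
  simp only [avg, MM, Fintype.card_prod, Nat.cast_mul]
  linarith

/-- weights of the middle levels -/
def wt (m : ℕ) : ℤ := ((min m (156 - m) - 1).descFactorial 5 : ℕ)

theorem wt_lo : ∀ a < 157, 0 ≤ ∑ m ∈ range 157, wt m * (6 - cc m a) := by decide +kernel

theorem wt_up : ∀ a < 157, 0 ≤ ∑ m ∈ range 157, wt m * (6 - cc (156 - m) a) := by decide +kernel

theorem wt_fin : 36 * (∑ m ∈ range 157, wt m) *
    (3 * ∑ a ∈ range (156 + 1), ((a : ℤ) + 1) * ((156 + 1 : ℕ) - a)) <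
    2 * ∑ m ∈ range 157, wt m * ((m + 1) * m * (((156 - m : ℕ) + 1) * (156 - m : ℕ))) := by
  decide +kernel

theorem not_NM (g : Vc 156 → Vc 156 → ZMod 2) : ¬ NM g := by
  intro h
  have hM : 0 < MM 156 := by
    rw [MM]
    exact_mod_cast Fintype.card_pos
  have h1 : ∀ m ∈ range 157, wt m * ((m + 1) * m * (((156 - m : ℕ) + 1) * (156 - m : ℕ))) *
      (2 * MM 156) ≤ wt m * ∑ a ∈ range 157, ∑ r ∈ range 157,
        ((a : ℤ) + 1) * (r + 1) * GG g a r * (cc m a * cc (156 - m) r) := by
    intro m hm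
    by_cases hm2 : 2 ≤ m ∧ m ≤ 154
    · obtain ⟨k, rfl⟩ : ∃ k, m = k + 1 := ⟨m - 1, by omega⟩
      obtain ⟨l, hl⟩ : ∃ l, 156 - (k + 1) = l + 1 := ⟨154 - k, by omega⟩
      rw [hl, mul_assoc]
      refine mul_le_mul_of_nonneg_left ?_ (Int.natCast_nonneg _)
      have := level 156 k l (by omega) (by omega) (by omega) (GG g) (2 * MM 156)
        fun p s p' s' => config g k l p s p' s' (by omega)
      refine le_of_eq_of_le ?_ this
      push_cast
      ring
    · have : wt m = 0 := by
        rw [wt, Nat.descFactorial_of_lt (by have := mem_range.1 hm; omega), Nat.cast_zero]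
      simp [this]
  have h2 := sum_le_sum h1
  have h3 : ∑ m ∈ range 157, wt m * ∑ a ∈ range 157, ∑ r ∈ range 157,
      ((a : ℤ) + 1) * (r + 1) * GG g a r * (cc m a * cc (156 - m) r) ≤
      36 * (∑ m ∈ range 157, wt m) *
        ∑ a ∈ range 157, ∑ r ∈ range 157, ((a : ℤ) + 1) * (r + 1) * GG g a r := by
    rw [sum_congr rfl fun m _ => (mul_sum _ _ _).trans
      (sum_congr rfl fun a _ => mul_sum _ _ _), sum_comm, mul_sum (range 157) _ (36 * _)]
    refine sum_le_sum fun a ha => ?_
    rw [sum_comm, mul_sum (range 157) _ (36 * _)]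
    refine sum_le_sum fun r hr => ?_
    by_cases har : a + r < 156
    · have e : ∑ m ∈ range 157, wt m * (((a : ℤ) + 1) * (r + 1) * GG g a r *
          (cc m a * cc (156 - m) r)) = (36 * ∑ m ∈ range 157, wt m -
            6 * ∑ m ∈ range 157, wt m * (6 - cc m a) -
            6 * ∑ m ∈ range 157, wt m * (6 - cc (156 - m) r)) *
          (((a : ℤ) + 1) * (r + 1) * GG g a r) := by
        simp only [mul_sum, ← sum_sub_distrib, sum_mul]
        refine sum_congr rfl fun m _ => ?_
        by_cases ham : a < m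
        · rw [show cc m a = 6 from if_pos ham]; ring
        · rw [show cc (156 - m) r = 6 from if_pos (by omega)]; ring
      rw [e]
      have := wt_lo a (mem_range.1 ha)
      have := wt_up r (mem_range.1 hr)
      refine mul_le_mul_of_nonneg_right ?_ (mul_nonneg (mul_nonneg (by omega) (by omega))
        (GG_nonneg g a r))
      linarith
    · rw [show GG g a r = 0 from if_neg har]
      simp only [mul_zero, zero_mul, sum_const_zero, le_refl]
  have h4 : ∑ a ∈ range 157, ∑ r ∈ range 157, ((a : ℤ) + 1) * (r + 1) * GG g a r =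
      ∑ b ∈ range (156 + 1), ∑ a ∈ range b,
        ((a : ℤ) + 1) * ((156 + 1 : ℕ) - b) * lv (PE g) a b := by
    rw [sum_comm, ← sum_range_reflect]
    refine sum_congr rfl fun b hb => ?_
    have hb' := mem_range.1 hb
    rw [← sum_subset (s₁ := range b) (range_mono (by omega)) fun x _ hx => by
      have : ¬ x < b := by simpa using hx
      rw [GG, if_neg (by omega), mul_zero]]
    refine sum_congr rfl fun a ha => ?_
    have := mem_range.1 ha
    rw [GG, if_pos (by omega), show 156 - (157 - 1 - b) = b by omega,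
      show ((157 - 1 - b : ℕ) : ℤ) + 1 = (156 + 1 : ℕ) - b by omega]
  have h5 := upper g h
  have h6 : (0 : ℤ) ≤ 36 * ∑ m ∈ range 157, wt m :=
    mul_nonneg (by norm_num) (sum_nonneg fun _ _ => Int.natCast_nonneg _)
  have h7 := mul_le_mul_of_nonneg_left h5 h6
  have h8 := mul_lt_mul_of_pos_right wt_fin hM
  rw [← sum_mul] at h2
  rw [h4] at h3
  generalize ∑ m ∈ range 157, wt m * ((m + 1) * m * (((156 - m : ℕ) + 1) * (156 - m : ℕ))) = T
    at h2 h8
  linarith

end Pool.Agent.MP_c9a892_co.H39
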